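import Pool.Agent.R171.YG.Defs

set_option autoImplicit false

open Complex

namespace Pool.Agent.R171.YG

variable {n : ℕ}

theorem Polygon.n_pos (P : Polygon n) : 0 < n := by have := P.three_le; omega

theorem Polygon.s_lt_succ (P : Polygon n) (i : ℤ) : P.s i < P.s (i + 1) := by
  rw [P.s_succ]; linarith [P.side_pos i]

theorem Polygon.s_strictMono (P : Polygon n) : StrictMono P.s :=
  strictMono_int_of_lt_succ P.s_lt_succ

theorem Polygon.s_add_n (P : Polygon n) (i : ℤ) : P.s (i + n) = P.s i + P.L := by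
  induction i using Int.induction_on with
  | zero => simp [Polygon.L, P.s_zero]
  | succ i ih =>
    have h1 := P.s_succ (i + n)
    have h2 := P.s_succ i
    have h3 : P.p ((i:ℤ) + n + 1) = P.p (i + 1) := by
      rw [show (i:ℤ) + n + 1 = (i + 1) + n by ring, P.periodic]
    rw [show (i:ℤ) + 1 + n = i + n + 1 by ring, h1, h3, P.periodic, ih, h2]; ring
  | pred i ih =>
    have h1 := P.s_succ (-(i:ℤ) - 1 + n)
    have h2 := P.s_succ (-(i:ℤ) - 1)
    have h3 : P.p (-(i:ℤ) - 1 + n) = P.p (-(i:ℤ) - 1) := P.periodic _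
    have h4 : P.p (-(i:ℤ) - 1 + n + 1) = P.p (-(i:ℤ) - 1 + 1) := by
      rw [show (-(i:ℤ) - 1 + n + 1) = (-(i:ℤ) - 1 + 1) + n by ring, P.periodic]
    rw [h4, h3, show (-(i:ℤ) - 1 + n + 1) = -(i:ℤ) + n by ring, ih] at h1
    rw [show (-(i:ℤ) - 1 + 1) = -(i:ℤ) by ring] at h1 h2
    linarith

theorem Polygon.s_add_mul (P : Polygon n) (i a : ℤ) : P.s (i + a * n) = P.s i + a * P.L := by
  induction a using Int.induction_on with
  | zero => simp
  | succ a ih =>
    rw [show i + ((a:ℤ) + 1) * n = (i + a * n) + n by ring, P.s_add_n, ih]; push_cast; ring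
  | pred a ih =>
    have h := P.s_add_n (i + (-(a:ℤ) - 1) * n)
    rw [show i + (-(a:ℤ) - 1) * n + n = i + -(a:ℤ) * n by ring, ih] at h
    push_cast at h ⊢; linarith

theorem Polygon.L_pos (P : Polygon n) : 0 < P.L := by
  have h := P.s_strictMono (show (0:ℤ) < n by exact_mod_cast P.n_pos)
  rw [P.s_zero] at h; exact h

theorem Polygon.turn_add_n (P : Polygon n) (i : ℤ) : P.turn (i + n) = P.turn i := by
  unfold Polygon.turn
  rw [show i + (n:ℤ) + 1 = (i + 1) + n by ring, show i + (n:ℤ) - 1 = (i - 1) + n by ring,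
    P.periodic, P.periodic, P.periodic]

theorem Polygon.neg_pi_lt_turn (P : Polygon n) (i : ℤ) : -Real.pi < P.turn i :=
  Complex.neg_pi_lt_arg _

theorem Polygon.turn_lt_pi (P : Polygon n) (i : ℤ) : P.turn i < Real.pi := by
  refine lt_of_le_of_ne (Complex.arg_le_pi _) ?_
  intro h
  unfold Polygon.turn at h
  rw [Complex.arg_eq_pi_iff] at h
  obtain ⟨hre, him⟩ := h
  set z := (P.p (i + 1) - P.p i) / (P.p i - P.p (i - 1)) with hz
  have hne : P.p i - P.p (i - 1) ≠ 0 := by
    have := P.side_pos (i - 1)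
    rw [show i - 1 + 1 = i by ring] at this
    exact norm_pos_iff.mp this
  have hzr : z = ((-(-z.re) : ℝ) : ℂ) := by
    apply Complex.ext <;> simp [him]
  set r := -z.re with hr
  have hr0 : 0 < r := by simp only [hr]; linarith
  have heq : P.p (i + 1) - P.p i = -(r:ℂ) * (P.p i - P.p (i - 1)) := by
    have : z * (P.p i - P.p (i - 1)) = P.p (i + 1) - P.p i := by
      rw [hz]; field_simp
    rw [← this, hzr]; push_cast; ring
  have hadj := P.adjacent (i - 1)
  rw [show i - 1 + 1 = i by ring, show i - 1 + 2 = i + 1 by ring] at hadj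
  -- the point `p i - m (p i - p (i-1))` with `m = min 1 r`
  set m := min 1 r with hm
  have hm0 : 0 < m := lt_min one_pos hr0
  have hm1 : m ≤ 1 := min_le_left _ _
  have hmr : m ≤ r := min_le_right _ _
  have hmem : P.p i - (m:ℂ) * (P.p i - P.p (i - 1)) ∈
      segment ℝ (P.p (i - 1)) (P.p i) ∩ segment ℝ (P.p i) (P.p (i + 1)) := by
    constructor
    · refine ⟨m, 1 - m, hm0.le, by linarith, by ring, ?_⟩
      simp only [Complex.real_smul]; push_cast; ring
    · refine ⟨1 - m / r, m / r, ?_, by positivity, by ring, ?_⟩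
      · rw [sub_nonneg, div_le_one hr0]; exact hmr
      · have h1 : P.p (i + 1) = P.p i + -(r:ℂ) * (P.p i - P.p (i - 1)) := by
          rw [← heq]; ring
        rw [h1]
        simp only [Complex.real_smul]
        have hrc : (r:ℂ) ≠ 0 := by exact_mod_cast hr0.ne'
        push_cast
        field_simp
        ring
  rw [hadj] at hmem
  have hmem' : P.p i - (m:ℂ) * (P.p i - P.p (i - 1)) = P.p i := hmem
  have : (m:ℂ) * (P.p i - P.p (i - 1)) = 0 := by linear_combination -hmem'
  rcases mul_eq_zero.mp this with h | h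
  · have : m = 0 := by exact_mod_cast h
    linarith
  · exact hne h

theorem sum_Ico_shift (g : ℤ → ℝ) (n : ℕ) (hg : ∀ i, g (i + n) = g i) (a : ℤ) :
    ∑ i ∈ Finset.Ico a (a + n), g i = ∑ i ∈ Finset.range n, g i := by
  rcases Nat.eq_zero_or_pos n with h0 | hpos
  · subst h0; simp
  have key : ∀ a : ℤ, ∑ i ∈ Finset.Ico (a + 1) (a + 1 + n), g i = ∑ i ∈ Finset.Ico a (a + n), g i := by
    intro a
    have h1 : Finset.Ico a (a + 1 + n) = insert a (Finset.Ico (a + 1) (a + 1 + n)) := by
      ext x; simp only [Finset.mem_Ico, Finset.mem_insert]; omega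
    have h2 : Finset.Ico a (a + 1 + n) = insert (a + n) (Finset.Ico a (a + n)) := by
      ext x; simp only [Finset.mem_Ico, Finset.mem_insert]; omega
    have e1 : ∑ i ∈ Finset.Ico a (a + 1 + n), g i = g a + ∑ i ∈ Finset.Ico (a + 1) (a + 1 + n), g i := by
      rw [h1, Finset.sum_insert (by simp)]
    have e2 : ∑ i ∈ Finset.Ico a (a + 1 + n), g i = g (a + n) + ∑ i ∈ Finset.Ico a (a + n), g i := by
      rw [h2, Finset.sum_insert (by simp)]
    rw [hg] at e2
    linarith
  have base : ∑ i ∈ Finset.Ico (0:ℤ) (0 + n), g i = ∑ i ∈ Finset.range n, g i := by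
    rw [zero_add]
    refine (Finset.sum_bij (fun (i:ℕ) _ => (i:ℤ)) ?_ ?_ ?_ ?_).symm
    · intro i hi; simp only [Finset.mem_range] at hi; simp only [Finset.mem_Ico]; omega
    · intro i _ j _ h; exact_mod_cast h
    · intro i hi
      simp only [Finset.mem_Ico] at hi
      refine ⟨i.toNat, ?_, ?_⟩
      · simp only [Finset.mem_range]; omega
      · omega
    · intro i _; rfl
  induction a using Int.induction_on with
  | zero => exact base
  | succ i ih => rw [key, ih]
  | pred i ih => rw [← ih, ← key (-(i:ℤ) - 1)]; congr 2 <;> ring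

theorem Polygon.sum_turn (P : Polygon n) (a : ℤ) :
    ∑ i ∈ Finset.Ico a (a + n), P.turn i = 2 * Real.pi := by
  rw [sum_Ico_shift P.turn n P.turn_add_n a]; exact P.turning

theorem Polygon.ang_s (P : Polygon n) (k : ℤ) : P.ang (P.s k) = P.angle k := by
  unfold Polygon.ang
  have h : ∃ j : ℤ, P.s k = P.s j := ⟨k, rfl⟩
  rw [dif_pos h]
  have := h.choose_spec
  rw [← P.s_strictMono.injective this]

theorem Polygon.ang_of_not (P : Polygon n) {t : ℝ} (h : ¬ ∃ k : ℤ, t = P.s k) :
    P.ang t = Real.pi := by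
  unfold Polygon.ang; rw [dif_neg h]

theorem Polygon.ang_pos (P : Polygon n) (t : ℝ) : 0 < P.ang t := by
  by_cases h : ∃ k : ℤ, t = P.s k
  · obtain ⟨k, rfl⟩ := h
    rw [P.ang_s]; unfold Polygon.angle; linarith [P.turn_lt_pi k]
  · rw [P.ang_of_not h]; exact Real.pi_pos

/-- every real number lies in exactly one interval `[s k, s (k+1))` -/
theorem Polygon.exists_floor (P : Polygon n) (t : ℝ) : ∃ k : ℤ, P.s k ≤ t ∧ t < P.s (k + 1) := by
  have hL := P.L_pos
  -- choose a multiple
  obtain ⟨a, ha⟩ := exists_int_lt (t / P.L)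
  obtain ⟨b, hb⟩ := exists_int_gt (t / P.L)
  have hlo : P.s (a * n) ≤ t := by
    have := P.s_add_mul 0 a
    rw [zero_add, P.s_zero, zero_add] at this
    rw [this]
    rw [lt_div_iff₀ hL] at ha; linarith
  have hhi : t < P.s (b * n) := by
    have := P.s_add_mul 0 b
    rw [zero_add, P.s_zero, zero_add] at this
    rw [this]
    rw [div_lt_iff₀ hL] at hb; linarith
  have hex := Int.exists_greatest_of_bdd (P := fun k : ℤ => P.s k ≤ t)
    ⟨b * n, fun k hk => by
      by_contra hlt
      push Not at hlt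
      have := P.s_strictMono hlt
      linarith⟩ ⟨a * n, hlo⟩
  obtain ⟨k, hk1, hk2⟩ := hex
  refine ⟨k, hk1, ?_⟩
  by_contra hge
  push Not at hge
  have := hk2 (k + 1) hge
  omega

theorem Polygon.inCell_vertex_iff (P : Polygon n) (t : ℝ) (v : ZMod n) :
    P.InCell t (.vertex v) ↔ ∃ k : ℤ, (k : ZMod n) = v ∧ t = P.s k := Iff.rfl

theorem Polygon.inCell_side_iff (P : Polygon n) (t : ℝ) (v : ZMod n) :
    P.InCell t (.side v) ↔ ∃ k : ℤ, (k : ZMod n) = v ∧ P.s k < t ∧ t < P.s (k + 1) := Iff.rfl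

theorem Polygon.inCell_add_mul (P : Polygon n) (t : ℝ) (a : ℤ) (c : Cell n) :
    P.InCell (t + a * P.L) c ↔ P.InCell t c := by
  have hcast : ∀ k : ℤ, ((k + a * n : ℤ) : ZMod n) = (k : ZMod n) := by intro k; push_cast; simp
  have hcast' : ∀ k : ℤ, ((k - a * n : ℤ) : ZMod n) = (k : ZMod n) := by intro k; push_cast; simp
  have hs : ∀ k : ℤ, P.s (k - a * n) = P.s k - a * P.L := by
    intro k
    have := P.s_add_mul (k - a * n) a
    rw [sub_add_cancel] at this; linarith
  cases c with
  | vertex v =>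
    constructor
    · rintro ⟨k, hk, h⟩
      exact ⟨k - a * n, by rw [hcast', hk], by rw [hs]; linarith⟩
    · rintro ⟨k, hk, h⟩
      exact ⟨k + a * n, by rw [hcast, hk], by rw [P.s_add_mul, h]⟩
  | side v =>
    constructor
    · rintro ⟨k, hk, h1, h2⟩
      refine ⟨k - a * n, by rw [hcast', hk], by rw [hs]; linarith, ?_⟩
      rw [show k - a * n + 1 = (k + 1) - a * n by ring, hs]; linarith
    · rintro ⟨k, hk, h1, h2⟩
      refine ⟨k + a * n, by rw [hcast, hk], by rw [P.s_add_mul]; linarith, ?_⟩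
      rw [show k + a * n + 1 = (k + 1) + a * n by ring, P.s_add_mul]; linarith

theorem Polygon.inCell_vertex_unique (P : Polygon n) {t : ℝ} {v w : ZMod n}
    (h1 : P.InCell t (.vertex v)) (h2 : P.InCell t (.vertex w)) : v = w := by
  obtain ⟨k, hk, h⟩ := h1
  obtain ⟨l, hl, h'⟩ := h2
  have : k = l := P.s_strictMono.injective (by rw [← h, ← h'])
  rw [← hk, ← hl, this]

/-- a vertex is not an interior point of a side -/
theorem Polygon.not_inCell_side_of_s (P : Polygon n) (k : ℤ) (w : ZMod n) :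
    ¬ P.InCell (P.s k) (.side w) := by
  rintro ⟨l, _, h1, h2⟩
  have h1' := P.s_strictMono.lt_iff_lt.mp h1
  have h2' := P.s_strictMono.lt_iff_lt.mp h2
  omega


end Pool.Agent.R171.YG
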