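import Pool.Agent.R171.YG.Upper

set_option autoImplicit false

open Complex

namespace Pool.Agent.R171.YG

variable {n : ℕ}

/-- reflex vertices strictly between `a` and `b` -/
noncomputable def refl' (P : Polygon n) (a b : ℤ) : Finset ℤ :=
  (Finset.Ioo a b).filter (fun k => P.turn k < 0)

open Classical in
/-- the possible positions of the junction point if there is a reflex vertex -/
noncomputable def Y (P : Polygon n) (a b : ℤ) : Finset ℝ :=
  if h : (refl' P a b).Nonempty then
    (Finset.Icc a b).image (fun d => P.s ((refl' P a b).min' h) + P.s d - P.s a) ∪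
    (Finset.Icc a b).image (fun d => P.s ((refl' P a b).max' h) + P.s d - P.s b)
  else ∅

theorem Y_card (P : Polygon n) {a b : ℤ} (hb : b < a + n) : (Y P a b).card ≤ 2 * n := by
  have h1 : (Finset.Icc a b).card ≤ n := by rw [Int.card_Icc]; omega
  unfold Y
  split_ifs with h
  · calc _ ≤ _ := Finset.card_union_le _ _
      _ ≤ n + n := Nat.add_le_add (Finset.card_image_le.trans h1) (Finset.card_image_le.trans h1)
      _ = 2 * n := by ring
  · simp

/-- a reflex vertex in a folded arc is glued to a vertex or is the fold point -/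
theorem reflex_mate (P : Polygon n) {lo hi : ℝ} (hf : Fold P lo hi) {v : ℤ} (hv : P.turn v < 0)
    (h1 : lo < P.s v) (h2 : P.s v < hi) : ∃ d : ℤ, lo + hi - P.s v = P.s d := by
  by_cases he : P.s v = lo + hi - P.s v
  · exact ⟨v, he.symm⟩
  · have := hf _ h1 h2 he
    rw [P.ang_s] at this
    unfold Polygon.angle at this
    exact vertex_of_lt P (by linarith)

theorem mem_Y {P : Polygon n} {g : Triple P} {j : Fin 3} {a b : ℤ} {y : ℝ} (h : Par P g j a b y)
    (hr : (refl' P a b).Nonempty) : y ∈ Y P a b := by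
  have hmono := P.s_strictMono
  have hmin := (refl' P a b).min'_mem hr
  have hmax := (refl' P a b).max'_mem hr
  set v := (refl' P a b).min' hr with hv
  set w := (refl' P a b).max' hr with hw
  have hvw : v ≤ w := Finset.min'_le_max' _ hr
  simp only [refl', Finset.mem_filter, Finset.mem_Ioo] at hmin hmax
  obtain ⟨⟨va, vb⟩, vr⟩ := hmin
  obtain ⟨⟨wa, wb⟩, wr⟩ := hmax
  unfold Y
  rw [dif_pos hr]
  rw [Finset.mem_union]
  rcases lt_trichotomy (P.s v) y with hlt | heq | hgt
  · left
    obtain ⟨d, hd⟩ := reflex_mate P h.f1 vr (hmono va) hlt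
    have hd1 : P.s a < P.s d := by rw [← hd]; linarith
    have hd2 : P.s d < P.s b := by rw [← hd]; linarith [h.hy2, hmono va]
    have ha := hmono.lt_iff_lt.mp hd1
    have hb := hmono.lt_iff_lt.mp hd2
    exact Finset.mem_image.mpr ⟨d, Finset.mem_Icc.mpr ⟨ha.le, hb.le⟩, by rw [← hd]; ring⟩
  · exact absurd ⟨v, heq.symm⟩ h.hy
  · right
    have hlt : y < P.s w := lt_of_lt_of_le hgt (hmono.monotone hvw)
    obtain ⟨d, hd⟩ := reflex_mate P h.f2 wr hlt (hmono wb)
    have hd1 : P.s a < P.s d := by rw [← hd]; linarith [h.hy1, hmono wb]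
    have hd2 : P.s d < P.s b := by rw [← hd]; linarith
    have ha := hmono.lt_iff_lt.mp hd1
    have hb := hmono.lt_iff_lt.mp hd2
    exact Finset.mem_image.mpr ⟨d, Finset.mem_Icc.mpr ⟨ha.le, hb.le⟩, by rw [← hd]; ring⟩

theorem mem_Good (hD1 : StmtD1) {P : Polygon n} {g : Triple P} {j : Fin 3} {a b : ℤ} {y : ℝ}
    (h : Par P g j a b y) (hr : ¬ (refl' P a b).Nonempty) : (a, b) ∈ Good n P.turn := by
  have hab := h.hab
  have hnon : ∀ k ∈ Finset.Ioo a b, 0 ≤ P.turn k := by
    intro k hk
    by_contra hlt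
    push Not at hlt
    exact hr ⟨k, by simp only [refl', Finset.mem_filter]; exact ⟨hk, hlt⟩⟩
  have ht := h.ht
  have ha := P.turn_lt_pi a
  have hb := P.turn_lt_pi b
  refine ⟨h.ha1, h.ha2, hab, h.hbn, ?_, ht, ?_⟩
  · intro k hk
    rw [Finset.mem_Icc] at hk
    rcases eq_or_lt_of_le hk.1 with e | e
    · rw [← e]; linarith
    · rcases eq_or_lt_of_le hk.2 with e' | e'
      · rw [e']; linarith
      · exact hnon k (Finset.mem_Ioo.mpr ⟨e, e'⟩)
  · have hD := hD1 P.s P.turn P.s_strictMono b (a + n) h.hbn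
      (fun k _ => (P.neg_pi_lt_turn k).le) (by
        intro k hk hne
        rw [Finset.mem_Ioo] at hk
        have hf := h.f3 (P.s k) (P.s_strictMono hk.1) (P.s_strictMono hk.2) (Ne.symm hne)
        rw [P.ang_s] at hf
        unfold Polygon.angle at hf
        constructor
        · intro d hd
          rw [hd, P.ang_s] at hf
          unfold Polygon.angle at hf
          linarith
        · intro hd
          rw [P.ang_of_not hd] at hf
          linarith)
    have hsum := P.sum_turn a
    have hbn := h.hbn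
    have hsplit : Finset.Ico a (a + n) = Finset.Icc a b ∪ Finset.Ioo b (a + n) := by
      ext k; simp only [Finset.mem_Ico, Finset.mem_union, Finset.mem_Icc, Finset.mem_Ioo]; omega
    have hdisj : Disjoint (Finset.Icc a b) (Finset.Ioo b (a + n)) := by
      rw [Finset.disjoint_left]
      intro k hk hk'
      simp only [Finset.mem_Icc, Finset.mem_Ioo] at hk hk'
      omega
    rw [hsplit, Finset.sum_union hdisj] at hsum
    linarith

theorem card_types_le (hD1 : StmtD1) (hD2 : StmtD2) (P : Polygon n) :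
    ∃ S : Finset (Typ n), P.types ⊆ S ∧ S.card ≤ 1200 * n ^ 3 := by
  classical
  have hn := P.n_pos
  have : Nonempty (Typ n) := ⟨(fun _ => ∅, fun _ => ∅, fun _ => ∅)⟩
  -- all three junction points are vertices
  let T1 : Finset (Typ n) := (Finset.univ : Finset (Fin 3 → Fin n)).image
    (fun k => if h : ∃ g : Triple P, g.t = fun i => P.s (k i : ℕ) then h.choose.typ
      else Classical.arbitrary _)
  have hT1 : T1.card ≤ n ^ 3 := by
    refine Finset.card_image_le.trans ?_
    rw [Finset.card_univ, Fintype.card_fun, Fintype.card_fin, Fintype.card_fin]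
  -- a reflex vertex near the sliding point
  let prs : Finset (ℤ × ℤ) := (Finset.Icc (-(n : ℤ)) n ×ˢ Finset.Icc (-(n : ℤ)) (2 * n)).filter
    (fun q => q.1 < q.2 ∧ q.2 < q.1 + n)
  have hprs : prs.card ≤ 12 * n ^ 2 := by
    refine (Finset.card_filter_le _ _).trans ?_
    rw [Finset.card_product, Int.card_Icc, Int.card_Icc]
    have h1 : ((n : ℤ) + 1 - -(n : ℤ)).toNat = 2 * n + 1 := by omega
    have h2 : (2 * (n : ℤ) + 1 - -(n : ℤ)).toNat = 3 * n + 1 := by omega
    rw [h1, h2]
    nlinarith
  let T2 : Finset (Typ n) := (Finset.univ : Finset (Fin 3)).biUnion (fun j => prs.biUnion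
    (fun q => (Y P q.1 q.2).image (fun y => build P (P.s q.1) (P.s q.2) j
      (core P (P.s q.1) (P.s q.2) y))))
  have hT2 : T2.card ≤ 72 * n ^ 3 := by
    have hin : ∀ j : Fin 3, (prs.biUnion (fun q => (Y P q.1 q.2).image
        (fun y => build P (P.s q.1) (P.s q.2) j (core P (P.s q.1) (P.s q.2) y)))).card
        ≤ 24 * n ^ 3 := by
      intro j
      calc _ ≤ ∑ q ∈ prs, ((Y P q.1 q.2).image (fun y => build P (P.s q.1) (P.s q.2) j
              (core P (P.s q.1) (P.s q.2) y))).card := Finset.card_biUnion_le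
        _ ≤ ∑ q ∈ prs, 2 * n := by
            refine Finset.sum_le_sum (fun q hq => Finset.card_image_le.trans ?_)
            simp only [prs, Finset.mem_filter] at hq
            exact Y_card P hq.2.2
        _ = prs.card * (2 * n) := by rw [Finset.sum_const, smul_eq_mul]
        _ ≤ 12 * n ^ 2 * (2 * n) := Nat.mul_le_mul_right _ hprs
        _ = 24 * n ^ 3 := by ring
    calc T2.card ≤ ∑ j : Fin 3, _ := Finset.card_biUnion_le
      _ ≤ ∑ _j : Fin 3, 24 * n ^ 3 := Finset.sum_le_sum (fun j _ => hin j)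
      _ = 72 * n ^ 3 := by simp; ring
  -- good pairs
  obtain ⟨hfin, hgood⟩ := hD2 n hn P.turn
  let C : ℤ × ℤ → Finset (Core n) := fun q =>
    if h : q.1 < q.2 ∧ q.2 < q.1 + n then (coreSet_card P h.1 h.2).choose else ∅
  have hC : ∀ q, (C q).card ≤ 2 * (2 * n ^ 2 + 1) := by
    intro q
    simp only [C]
    split_ifs with h
    · exact (coreSet_card P h.1 h.2).choose_spec.1
    · simp
  let T3 : Finset (Typ n) := (Finset.univ : Finset (Fin 3)).biUnion (fun j =>
    hfin.toFinset.biUnion (fun q => (C q).image (fun c => build P (P.s q.1) (P.s q.2) j c)))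
  have hT3 : T3.card ≤ 1080 * n ^ 3 := by
    have hin : ∀ j : Fin 3, (hfin.toFinset.biUnion (fun q => (C q).image
        (fun c => build P (P.s q.1) (P.s q.2) j c))).card ≤ 360 * n ^ 3 := by
      intro j
      have hc : hfin.toFinset.card ≤ 60 * n := by
        rw [← Set.ncard_eq_toFinset_card _ hfin]; exact hgood
      calc _ ≤ ∑ q ∈ hfin.toFinset, ((C q).image (fun c => build P (P.s q.1) (P.s q.2) j c)).card
              := Finset.card_biUnion_le
        _ ≤ ∑ q ∈ hfin.toFinset, 2 * (2 * n ^ 2 + 1) :=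
            Finset.sum_le_sum (fun q _ => Finset.card_image_le.trans (hC q))
        _ = hfin.toFinset.card * (2 * (2 * n ^ 2 + 1)) := by rw [Finset.sum_const, smul_eq_mul]
        _ ≤ 60 * n * (2 * (2 * n ^ 2 + 1)) := Nat.mul_le_mul_right _ hc
        _ ≤ 60 * n * (6 * n ^ 2) := by
            apply Nat.mul_le_mul_left
            nlinarith
        _ = 360 * n ^ 3 := by ring
    calc T3.card ≤ ∑ j : Fin 3, _ := Finset.card_biUnion_le
      _ ≤ ∑ _j : Fin 3, 360 * n ^ 3 := Finset.sum_le_sum (fun j _ => hin j)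
      _ = 1080 * n ^ 3 := by simp; ring
  refine ⟨T1 ∪ T2 ∪ T3, ?_, ?_⟩
  · rintro τ ⟨g, hg, rfl⟩
    rw [Finset.coe_union, Finset.coe_union]
    rcases exists_par g hg with ⟨k, hk⟩ | ⟨j, a, b, y, hp⟩
    · left; left
      simp only [T1, Finset.coe_image, Finset.coe_univ, Set.image_univ, Set.mem_range]
      refine ⟨fun i => ⟨(k i).toNat, by have := hk i; omega⟩, ?_⟩
      have hex : ∃ g' : Triple P, g'.t = fun i => P.s (((k i).toNat : ℕ) : ℤ) := by
        refine ⟨g, ?_⟩
        funext i
        rw [(hk i).2.2, Int.toNat_of_nonneg (hk i).1]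
      simp only
      rw [dif_pos hex]
      have hspec := hex.choose_spec
      have : hex.choose = g := by
        apply Triple.ext'
        rw [hspec]
        funext i
        rw [(hk i).2.2, Int.toNat_of_nonneg (hk i).1]
      rw [this]
    · by_cases hr : (refl' P a b).Nonempty
      · left; right
        have hy := mem_Y hp hr
        simp only [T2, Finset.coe_biUnion, Set.mem_iUnion, Finset.coe_image, Finset.coe_univ,
          Set.mem_univ, exists_prop, true_and, Set.mem_image, Finset.mem_coe]
        refine ⟨j, (a, b), ?_, y, hy, hp.typ.symm⟩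
        simp only [prs, Finset.mem_filter, Finset.mem_product, Finset.mem_Icc]
        have h1 := hp.ha1
        have h2 := hp.ha2
        have h3 := hp.hab
        have h4 := hp.hbn
        refine ⟨⟨⟨h1, h2⟩, by omega, by omega⟩, h3, h4⟩
      · right
        have hq := mem_Good hD1 hp hr
        simp only [T3, Finset.coe_biUnion, Set.mem_iUnion, Finset.coe_image, Finset.coe_univ,
          Set.mem_univ, exists_prop, true_and, Set.mem_image, Finset.mem_coe]
        refine ⟨j, (a, b), hfin.mem_toFinset.mpr hq, core P (P.s a) (P.s b) y, ?_, hp.typ.symm⟩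
        simp only [C]
        rw [dif_pos ⟨hp.hab, hp.hbn⟩]
        exact (coreSet_card P hp.hab hp.hbn).choose_spec.2 ⟨y, hp.hy1, hp.hy2, rfl⟩
  · calc (T1 ∪ T2 ∪ T3).card ≤ (T1 ∪ T2).card + T3.card := Finset.card_union_le _ _
      _ ≤ T1.card + T2.card + T3.card := Nat.add_le_add_right (Finset.card_union_le _ _) _
      _ ≤ n ^ 3 + 72 * n ^ 3 + 1080 * n ^ 3 := by
          exact Nat.add_le_add (Nat.add_le_add hT1 hT2) hT3
      _ ≤ 1200 * n ^ 3 := by nlinarith

end Pool.Agent.R171.YG
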