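import Mathlib

set_option autoImplicit false

open Complex

namespace Pool.Agent.R171.YG

/-- A simple polygon with `n` vertices, positively oriented, with its boundary parametrised by
arc length.  The vertices are `p i` (`i : ℤ`, periodic with period `n`), `s i` is the arc length
from `p 0` to `p i` along the boundary (for every integer `i`, so `s (i + n) = s i + perimeter`).
The sides meet only in the common end points of consecutive sides, and the total turning is
`2 π` (this is the positive orientation of a simple polygon). -/
structure Polygon (n : ℕ) where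
  three_le : 3 ≤ n
  p : ℤ → ℂ
  periodic : ∀ i, p (i + n) = p i
  adjacent : ∀ i, segment ℝ (p i) (p (i + 1)) ∩ segment ℝ (p (i + 1)) (p (i + 2)) = {p (i + 1)}
  disjoint : ∀ i j, i + 2 ≤ j → j ≤ i + n - 2 →
    Disjoint (segment ℝ (p i) (p (i + 1))) (segment ℝ (p j) (p (j + 1)))
  s : ℤ → ℝ
  s_zero : s 0 = 0
  s_succ : ∀ i, s (i + 1) = s i + ‖p (i + 1) - p i‖
  side_pos : ∀ i, 0 < ‖p (i + 1) - p i‖
  turning : ∑ i ∈ Finset.range n,
    arg ((p ((i : ℤ) + 1) - p i) / (p i - p ((i : ℤ) - 1))) = 2 * Real.pi

variable {n : ℕ}

/-- The turn of the boundary at the vertex `i`. -/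
noncomputable def Polygon.turn (P : Polygon n) (i : ℤ) : ℝ :=
  arg ((P.p (i + 1) - P.p i) / (P.p i - P.p (i - 1)))

/-- The interior angle at the vertex `i`. -/
noncomputable def Polygon.angle (P : Polygon n) (i : ℤ) : ℝ := Real.pi - P.turn i

/-- The perimeter. -/
noncomputable def Polygon.L (P : Polygon n) : ℝ := P.s n

/-- The cells of the boundary: the `n` vertices and the `n` sides (without end points). -/
inductive Cell (n : ℕ) where
  | vertex (i : ZMod n)
  | side (i : ZMod n)
  deriving DecidableEq

/-- The boundary point with arc length parameter `t` lies in the cell `c`. -/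
def Polygon.InCell (P : Polygon n) (t : ℝ) : Cell n → Prop
  | .vertex i => ∃ k : ℤ, (k : ZMod n) = i ∧ t = P.s k
  | .side i => ∃ k : ℤ, (k : ZMod n) = i ∧ P.s k < t ∧ t < P.s (k + 1)

open Classical in
/-- The interior angle of the polygon at the boundary point with parameter `t`: the interior angle
at a vertex, and `π` at an interior point of a side. -/
noncomputable def Polygon.ang (P : Polygon n) (t : ℝ) : ℝ :=
  if h : ∃ k : ℤ, t = P.s k then P.angle h.choose else Real.pi

/-- Three boundary points `t 0 < t 1 < t 2` in `[0, L)`: the junction of a three-leaf gluing.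
They cut the boundary into the three arcs `[t 0, t 1]`, `[t 1, t 2]`, `[t 2, t 0 + L]`. -/
structure Triple (P : Polygon n) where
  t : Fin 3 → ℝ
  nonneg : 0 ≤ t 0
  lt01 : t 0 < t 1
  lt12 : t 1 < t 2
  lt2 : t 2 < P.L

/-- The beginning of the arc number `i`. -/
def Triple.lo {P : Polygon n} (g : Triple P) (i : Fin 3) : ℝ := g.t i

/-- The end of the arc number `i`. -/
noncomputable def Triple.hi {P : Polygon n} (g : Triple P) (i : Fin 3) : ℝ :=
  if i = 0 then g.t 1 else if i = 1 then g.t 2 else g.t 0 + P.L

/-- The identification of the boundary with itself given by the triple: every one of the three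
arcs is folded in half (`x` is glued to `y` if they are mirror images in one of the arcs), so
that the three end points of the arcs are glued to one point.  Parameters that differ by a
multiple of `L` are the same boundary point. -/
def Triple.Glued {P : Polygon n} (g : Triple P) (x y : ℝ) : Prop :=
  (∃ a : ℤ, x = y + a * P.L) ∨
    ∃ (a b : ℤ) (i : Fin 3), g.lo i ≤ x + a * P.L ∧ x + a * P.L ≤ g.hi i ∧
      (x + a * P.L) + (y + b * P.L) = g.lo i + g.hi i

/-- Alexandrov's condition: at every point of the quotient the sum of the angles glued there is
at most `2 π`. -/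
def Triple.Alexandrov {P : Polygon n} (g : Triple P) : Prop :=
  P.ang (g.t 0) + P.ang (g.t 1) + P.ang (g.t 2) ≤ 2 * Real.pi ∧
    ∀ (i : Fin 3) (x : ℝ), g.lo i < x → x < g.hi i → x ≠ g.lo i + g.hi i - x →
      P.ang x + P.ang (g.lo i + g.hi i - x) ≤ 2 * Real.pi

/-- The combinatorial type of a three-leaf gluing, i.e. its labelled gluing tree: the labels of the
junction (the three cells, in the order of the boundary), the labels of the three leaves (the
cells of the fold points of the three arcs) and, for every vertex of the polygon, the label of
the node of the tree at this vertex (the set of all cells that are glued there). -/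
abbrev Typ (n : ℕ) : Type := (Fin 3 → Set (Cell n)) × (Fin 3 → Set (Cell n)) × (ZMod n → Set (Cell n))

/-- The combinatorial type of the gluing given by `g`. -/
def Triple.typ {P : Polygon n} (g : Triple P) : Typ n :=
  (fun i => {c | P.InCell (g.t i) c},
   fun i => {c | P.InCell ((g.lo i + g.hi i) / 2) c},
   fun v => {c | ∃ x y, P.InCell x (.vertex v) ∧ g.Glued x y ∧ P.InCell y c})

/-- The set of the combinatorial types of all three-leaf gluings of `P`. -/
def Polygon.types (P : Polygon n) : Set (Typ n) := {τ | ∃ g : Triple P, g.Alexandrov ∧ g.typ = τ}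

/-- `f n`: the maximum number of distinct three-leaf gluing trees of a polygon with `n`
vertices. -/
noncomputable def f (n : ℕ) : ℕ := sSup {k | ∃ P : Polygon n, k = P.types.ncard}

end Pool.Agent.R171.YG
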