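import Pool.Agent.R171.YG.Basic

set_option autoImplicit false

open Complex

namespace Pool.Agent.R171.YG

variable {n : ℕ}

/-- folding of the arc `[lo, hi]` -/
def GA (P : Polygon n) (lo hi x y : ℝ) : Prop :=
  ∃ a b : ℤ, lo ≤ x + a * P.L ∧ x + a * P.L ≤ hi ∧ (x + a * P.L) + (y + b * P.L) = lo + hi

theorem GA_shift (P : Polygon n) (lo hi x y : ℝ) :
    GA P (lo + P.L) (hi + P.L) x y ↔ GA P lo hi x y := by
  constructor
  · rintro ⟨a, b, h1, h2, h3⟩
    refine ⟨a - 1, b - 1, ?_, ?_, ?_⟩ <;> push_cast <;> linarith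
  · rintro ⟨a, b, h1, h2, h3⟩
    refine ⟨a + 1, b + 1, ?_, ?_, ?_⟩ <;> push_cast <;> linarith

def cells (P : Polygon n) (t : ℝ) : Set (Cell n) := {c | P.InCell t c}

theorem cells_add_L (P : Polygon n) (t : ℝ) : cells P (t + P.L) = cells P t := by
  ext c
  have := P.inCell_add_mul t 1 c
  simp only [cells, Set.mem_ofPred_eq]
  simpa using this

/-- the labels, in terms of the three arcs `[A, y]`, `[y, B]`, `[B, A + L]` -/
def lab (P : Polygon n) (A y B : ℝ) (v : ZMod n) : Set (Cell n) :=
  {c | ∃ x z, P.InCell x (.vertex v) ∧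
    ((∃ e : ℤ, x = z + e * P.L) ∨ GA P A y x z ∨ GA P y B x z ∨ GA P B (A + P.L) x z) ∧
      P.InCell z c}

abbrev Core (n : ℕ) : Type := Set (Cell n) × Set (Cell n) × Set (Cell n) × (ZMod n → Set (Cell n))

def core (P : Polygon n) (A B y : ℝ) : Core n :=
  (cells P y, cells P ((A + y) / 2), cells P ((y + B) / 2), lab P A y B)

/-- the type as a function of the core -/
def build (P : Polygon n) (A B : ℝ) (j : Fin 3) (c : Core n) : Typ n :=
  if j = 0 then (![c.1, cells P B, cells P A], ![c.2.2.1, cells P ((B + (A + P.L)) / 2), c.2.1],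
    c.2.2.2)
  else if j = 1 then (![cells P A, c.1, cells P B],
    ![c.2.1, c.2.2.1, cells P ((B + (A + P.L)) / 2)], c.2.2.2)
  else (![cells P B, cells P A, c.1], ![cells P ((B + (A + P.L)) / 2), c.2.1, c.2.2.1], c.2.2.2)

/-- critical values -/
noncomputable def K (P : Polygon n) (a b : ℤ) : Finset ℝ :=
  ((Finset.Icc a b ×ˢ Finset.Icc a b).image (fun q => P.s q.1 + P.s q.2 - P.s a)) ∪
  ((Finset.Icc a b ×ˢ Finset.Icc a b).image (fun q => P.s q.1 + P.s q.2 - P.s b))

theorem K_card (P : Polygon n) (a b : ℤ) (hb : b < a + n) : (K P a b).card ≤ 2 * n ^ 2 := by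
  have h1 : (Finset.Icc a b).card ≤ n := by rw [Int.card_Icc]; omega
  have h2 : (Finset.Icc a b ×ˢ Finset.Icc a b).card ≤ n ^ 2 := by
    rw [Finset.card_product, pow_two]; exact Nat.mul_le_mul h1 h1
  calc (K P a b).card ≤ _ := Finset.card_union_le _ _
    _ ≤ n ^ 2 + n ^ 2 := Nat.add_le_add (Finset.card_image_le.trans h2) (Finset.card_image_le.trans h2)
    _ = 2 * n ^ 2 := by ring

/-- same position relative to the critical values -/
def Same (F : Finset ℝ) (y y' : ℝ) : Prop := ∀ κ ∈ F, (κ < y ↔ κ < y') ∧ (y < κ ↔ y' < κ)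

theorem Same.symm {F : Finset ℝ} {y y' : ℝ} (h : Same F y y') : Same F y' y :=
  fun κ hκ => ⟨(h κ hκ).1.symm, (h κ hκ).2.symm⟩

theorem Same.eq {F : Finset ℝ} {y y' : ℝ} (h : Same F y y') {κ : ℝ} (hκ : κ ∈ F) :
    y = κ ↔ y' = κ := by
  have h1 := (h κ hκ).1
  have h2 := (h κ hκ).2
  constructor
  · intro e
    subst e
    rcases lt_trichotomy y' y with h3 | h3 | h3
    · exact absurd (h2.mpr h3) (lt_irrefl _)
    · exact h3
    · exact absurd (h1.mpr h3) (lt_irrefl _)
  · intro e
    subst e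
    rcases lt_trichotomy y y' with h3 | h3 | h3
    · exact absurd (h2.mp h3) (lt_irrefl _)
    · exact h3
    · exact absurd (h1.mp h3) (lt_irrefl _)

theorem mem_K1 (P : Polygon n) {a b c d : ℤ} (hc : a ≤ c ∧ c ≤ b) (hd : a ≤ d ∧ d ≤ b) :
    P.s c + P.s d - P.s a ∈ K P a b := by
  unfold K
  refine Finset.mem_union_left _ (Finset.mem_image.mpr ⟨(c, d), ?_, rfl⟩)
  simp only [Finset.mem_product, Finset.mem_Icc]; exact ⟨hc, hd⟩

theorem mem_K2 (P : Polygon n) {a b c d : ℤ} (hc : a ≤ c ∧ c ≤ b) (hd : a ≤ d ∧ d ≤ b) :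
    P.s c + P.s d - P.s b ∈ K P a b := by
  unfold K
  refine Finset.mem_union_right _ (Finset.mem_image.mpr ⟨(c, d), ?_, rfl⟩)
  simp only [Finset.mem_product, Finset.mem_Icc]; exact ⟨hc, hd⟩

/-- the cell of a point `w = y + r` moving with `y` in `[s a, s b]` does not change if all the
values `s d - r` are critical -/
theorem inCell_move (P : Polygon n) {a b : ℤ} {y y' r : ℝ} (F : Finset ℝ)
    (hcrit : ∀ d : ℤ, a ≤ d → d ≤ b → P.s d - r ∈ F) (h : Same F y y')
    (h1 : P.s a ≤ y + r) (h2 : y + r ≤ P.s b) (hab : a < b) (c : Cell n) (hc : P.InCell (y + r) c) :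
    P.InCell (y' + r) c := by
  cases c with
  | vertex v =>
    obtain ⟨k, hk, e⟩ := hc
    have ha : a ≤ k := P.s_strictMono.le_iff_le.mp (by rw [← e]; exact h1)
    have hb : k ≤ b := P.s_strictMono.le_iff_le.mp (by rw [← e]; exact h2)
    have := (h.eq (hcrit k ha hb)).mp (by linarith)
    exact ⟨k, hk, by rw [this]; ring⟩
  | side v =>
    obtain ⟨k, hk, e1, e2⟩ := hc
    have ha : a < k + 1 := P.s_strictMono.lt_iff_lt.mp (by linarith)
    have hb : k < b := P.s_strictMono.lt_iff_lt.mp (by linarith)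
    have h3 := (h _ (hcrit k (by omega) (by omega))).1.mp (by linarith)
    have h4 := (h _ (hcrit (k + 1) (by omega) (by omega))).2.mp (by linarith)
    exact ⟨k, hk, by linarith, by linarith⟩

theorem core_le (P : Polygon n) {a b : ℤ} (hab : a < b) {y y' : ℝ} (hy : P.s a < y ∧ y < P.s b)
    (hy' : P.s a < y' ∧ y' < P.s b) (h : Same (K P a b) y y') :
    cells P y ⊆ cells P y' ∧ cells P ((P.s a + y) / 2) ⊆ cells P ((P.s a + y') / 2) ∧
      cells P ((y + P.s b) / 2) ⊆ cells P ((y' + P.s b) / 2) ∧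
      ∀ v, lab P (P.s a) y (P.s b) v ⊆ lab P (P.s a) y' (P.s b) v := by
  have hab' := P.s_strictMono hab
  have hcy : ∀ c, P.InCell y c → P.InCell y' c := by
    intro c hc
    have := inCell_move P (a := a) (b := b) (r := 0) (K P a b) (fun d h1 h2 => by
      have := mem_K1 P (a := a) (b := b) (c := d) (d := a) ⟨h1, h2⟩ ⟨le_rfl, hab.le⟩
      simpa using this) h (by linarith) (by linarith) hab c (by simpa using hc)
    simpa using this
  -- vertices compared with y
  have hcmp : ∀ k : ℤ, a ≤ k → k ≤ b → (P.s k ≤ y → P.s k ≤ y') ∧ (y ≤ P.s k → y' ≤ P.s k) := by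
    intro k h1 h2
    have hk := mem_K1 P (a := a) (b := b) (c := k) (d := a) ⟨h1, h2⟩ ⟨le_rfl, hab.le⟩
    rw [show P.s k + P.s a - P.s a = P.s k by ring] at hk
    have h3 := h _ hk
    constructor
    · intro h4
      by_contra h5
      push Not at h5
      exact absurd (h3.2.mpr h5) (not_lt.mpr h4)
    · intro h4
      by_contra h5
      push Not at h5
      exact absurd (h3.1.mpr h5) (not_lt.mpr h4)
  refine ⟨hcy, ?_, ?_, ?_⟩
  · -- first midpoint
    intro c hc
    simp only [cells, Set.mem_ofPred_eq] at hc ⊢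
    cases c with
    | vertex v =>
      obtain ⟨k, hk, e⟩ := hc
      have ha : a < k := P.s_strictMono.lt_iff_lt.mp (by linarith)
      have hb : k < b := P.s_strictMono.lt_iff_lt.mp (by linarith)
      have := (h.eq (mem_K1 P (a := a) (b := b) (c := k) (d := k) ⟨ha.le, hb.le⟩ ⟨ha.le, hb.le⟩)).mp
        (by linarith)
      exact ⟨k, hk, by linarith⟩
    | side v =>
      obtain ⟨k, hk, e1, e2⟩ := hc
      have ha : a < k + 1 := P.s_strictMono.lt_iff_lt.mp (by linarith)
      have hb : k < b := P.s_strictMono.lt_iff_lt.mp (by linarith)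
      have h3 := (h _ (mem_K1 P (a := a) (b := b) (c := k) (d := k) ⟨by omega, by omega⟩
        ⟨by omega, by omega⟩)).1.mp (by linarith)
      have h4 := (h _ (mem_K1 P (a := a) (b := b) (c := k + 1) (d := k + 1) ⟨by omega, by omega⟩
        ⟨by omega, by omega⟩)).2.mp (by linarith)
      exact ⟨k, hk, by linarith, by linarith⟩
  · -- second midpoint
    intro c hc
    simp only [cells, Set.mem_ofPred_eq] at hc ⊢
    cases c with
    | vertex v =>
      obtain ⟨k, hk, e⟩ := hc
      have ha : a < k := P.s_strictMono.lt_iff_lt.mp (by linarith)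
      have hb : k < b := P.s_strictMono.lt_iff_lt.mp (by linarith)
      have := (h.eq (mem_K2 P (a := a) (b := b) (c := k) (d := k) ⟨ha.le, hb.le⟩ ⟨ha.le, hb.le⟩)).mp
        (by linarith)
      exact ⟨k, hk, by linarith⟩
    | side v =>
      obtain ⟨k, hk, e1, e2⟩ := hc
      have ha : a < k + 1 := P.s_strictMono.lt_iff_lt.mp (by linarith)
      have hb : k < b := P.s_strictMono.lt_iff_lt.mp (by linarith)
      have h3 := (h _ (mem_K2 P (a := a) (b := b) (c := k) (d := k) ⟨by omega, by omega⟩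
        ⟨by omega, by omega⟩)).1.mp (by linarith)
      have h4 := (h _ (mem_K2 P (a := a) (b := b) (c := k + 1) (d := k + 1) ⟨by omega, by omega⟩
        ⟨by omega, by omega⟩)).2.mp (by linarith)
      exact ⟨k, hk, by linarith, by linarith⟩
  · -- labels
    intro v c hc
    obtain ⟨x, z, hx, hg, hz⟩ := hc
    obtain ⟨k, hk, rfl⟩ := hx
    have hvert : ∀ e : ℤ, P.s k + e * P.L = P.s (k + e * n) := fun e => (P.s_add_mul k e).symm
    rcases hg with hg | hg | hg | hg
    · exact ⟨P.s k, z, ⟨k, hk, rfl⟩, Or.inl hg, hz⟩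
    · obtain ⟨α, β, h1, h2, h3⟩ := hg
      rw [hvert] at h1 h2 h3
      have ha : a ≤ k + α * n := P.s_strictMono.le_iff_le.mp h1
      have hb : k + α * n ≤ b := P.s_strictMono.le_iff_le.mp (by linarith)
      refine ⟨P.s k, z + (y' - y), ⟨k, hk, rfl⟩, Or.inr (Or.inl ⟨α, β, ?_, ?_, ?_⟩), ?_⟩
      · rw [hvert]; exact h1
      · rw [hvert]; exact (hcmp _ ha hb).1 h2
      · rw [hvert]; linarith
      · -- cell of the moving mirror image
        have hz' : P.InCell (y + (P.s a - P.s (k + α * n))) c := by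
          rw [← P.inCell_add_mul z β c] at hz
          rwa [show y + (P.s a - P.s (k + α * n)) = z + β * P.L by linarith]
        have := inCell_move P (a := a) (b := b) (K P a b) (fun d e1 e2 => by
          have := mem_K1 P (a := a) (b := b) (c := d) (d := k + α * n) ⟨e1, e2⟩ ⟨ha, hb⟩
          rwa [show P.s d - (P.s a - P.s (k + α * n)) = P.s d + P.s (k + α * n) - P.s a by ring])
          h (by linarith) (by linarith) hab c hz'
        rw [show y' + (P.s a - P.s (k + α * n)) = (z + (y' - y)) + β * P.L by linarith,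
          P.inCell_add_mul] at this
        exact this
    · obtain ⟨α, β, h1, h2, h3⟩ := hg
      rw [hvert] at h1 h2 h3
      have ha : a ≤ k + α * n := P.s_strictMono.le_iff_le.mp (by linarith)
      have hb : k + α * n ≤ b := P.s_strictMono.le_iff_le.mp h2
      refine ⟨P.s k, z + (y' - y), ⟨k, hk, rfl⟩, Or.inr (Or.inr (Or.inl ⟨α, β, ?_, ?_, ?_⟩)), ?_⟩
      · rw [hvert]; exact (hcmp _ ha hb).2 h1
      · rw [hvert]; exact h2
      · rw [hvert]; linarith
      · have hz' : P.InCell (y + (P.s b - P.s (k + α * n))) c := by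
          rw [← P.inCell_add_mul z β c] at hz
          rwa [show y + (P.s b - P.s (k + α * n)) = z + β * P.L by linarith]
        have := inCell_move P (a := a) (b := b) (K P a b) (fun d e1 e2 => by
          have := mem_K2 P (a := a) (b := b) (c := d) (d := k + α * n) ⟨e1, e2⟩ ⟨ha, hb⟩
          rwa [show P.s d - (P.s b - P.s (k + α * n)) = P.s d + P.s (k + α * n) - P.s b by ring])
          h (by linarith) (by linarith) hab c hz'
        rw [show y' + (P.s b - P.s (k + α * n)) = (z + (y' - y)) + β * P.L by linarith,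
          P.inCell_add_mul] at this
        exact this
    · exact ⟨P.s k, z, ⟨k, hk, rfl⟩, Or.inr (Or.inr (Or.inr hg)), hz⟩

theorem core_eq (P : Polygon n) {a b : ℤ} (hab : a < b) {y y' : ℝ} (hy : P.s a < y ∧ y < P.s b)
    (hy' : P.s a < y' ∧ y' < P.s b) (h : Same (K P a b) y y') :
    core P (P.s a) (P.s b) y = core P (P.s a) (P.s b) y' := by
  obtain ⟨h1, h2, h3, h4⟩ := core_le P hab hy hy' h
  obtain ⟨g1, g2, g3, g4⟩ := core_le P hab hy' hy h.symm
  unfold core
  rw [Set.Subset.antisymm h1 g1, Set.Subset.antisymm h2 g2, Set.Subset.antisymm h3 g3]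
  congr 3
  funext v
  exact Set.Subset.antisymm (h4 v) (g4 v)

/-- index of the position of `y` relative to the critical values -/
noncomputable def idx (F : Finset ℝ) (y : ℝ) : ℕ × ℕ :=
  ((F.filter (· < y)).card, (F.filter (· ≤ y)).card)

theorem idx_same {F : Finset ℝ} {y y' : ℝ} (h : idx F y = idx F y') : Same F y y' := by
  have key : ∀ {u w : ℝ}, u ≤ w → idx F u = idx F w →
      F.filter (· < u) = F.filter (· < w) ∧ F.filter (· ≤ u) = F.filter (· ≤ w) := by
    intro u w huw hidx
    have h1 := congrArg Prod.fst hidx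
    have h2 := congrArg Prod.snd hidx
    simp only [idx] at h1 h2
    constructor
    · apply Finset.eq_of_subset_of_card_le
      · intro κ hκ
        simp only [Finset.mem_filter] at hκ ⊢
        exact ⟨hκ.1, lt_of_lt_of_le hκ.2 huw⟩
      · exact h1.ge
    · apply Finset.eq_of_subset_of_card_le
      · intro κ hκ
        simp only [Finset.mem_filter] at hκ ⊢
        exact ⟨hκ.1, hκ.2.trans huw⟩
      · exact h2.ge
  have hboth : F.filter (· < y) = F.filter (· < y') ∧ F.filter (· ≤ y) = F.filter (· ≤ y') := by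
    rcases le_total y y' with h0 | h0
    · exact key h0 h
    · have := key h0 h.symm
      exact ⟨this.1.symm, this.2.symm⟩
  intro κ hκ
  constructor
  · have := Finset.ext_iff.mp hboth.1 κ
    simpa [hκ] using this
  · have := Finset.ext_iff.mp hboth.2 κ
    simp only [Finset.mem_filter, hκ, true_and] at this
    rw [← not_le, ← not_le, this]

theorem idx_range (F : Finset ℝ) (y : ℝ) :
    (idx F y).1 ≤ F.card ∧ ((idx F y).2 = (idx F y).1 ∨ (idx F y).2 = (idx F y).1 + 1) := by
  refine ⟨Finset.card_filter_le _ _, ?_⟩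
  simp only [idx]
  by_cases hy : y ∈ F
  · right
    have : F.filter (· ≤ y) = insert y (F.filter (· < y)) := by
      ext κ
      simp only [Finset.mem_filter, Finset.mem_insert]
      constructor
      · rintro ⟨h1, h2⟩
        rcases lt_or_eq_of_le h2 with h3 | h3
        · exact Or.inr ⟨h1, h3⟩
        · exact Or.inl h3
      · rintro (h1 | h1)
        · rw [h1]; exact ⟨hy, le_rfl⟩
        · exact ⟨h1.1, h1.2.le⟩
    rw [this, Finset.card_insert_of_notMem (by simp)]
  · left
    congr 1
    ext κ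
    simp only [Finset.mem_filter]
    constructor
    · rintro ⟨h1, h2⟩
      exact ⟨h1, lt_of_le_of_ne h2 (fun e => hy (e ▸ h1))⟩
    · rintro ⟨h1, h2⟩
      exact ⟨h1, h2.le⟩

/-- the set of the cores for the pair `(a, b)` -/
def coreSet (P : Polygon n) (a b : ℤ) : Set (Core n) :=
  {c | ∃ y, P.s a < y ∧ y < P.s b ∧ core P (P.s a) (P.s b) y = c}

theorem coreSet_card (P : Polygon n) {a b : ℤ} (hab : a < b) (hb : b < a + n) :
    ∃ S : Finset (Core n), S.card ≤ 2 * (2 * n ^ 2 + 1) ∧ coreSet P a b ⊆ S := by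
  classical
  set F := K P a b with hF
  -- choose a representative for every index
  let R : ℕ × ℕ → Core n := fun p =>
    if h : ∃ y, P.s a < y ∧ y < P.s b ∧ idx F y = p then core P (P.s a) (P.s b) h.choose
    else core P (P.s a) (P.s b) 0
  let I : Finset (ℕ × ℕ) := (Finset.range (2 * n ^ 2 + 1) ×ˢ Finset.range 2).image
    (fun q => (q.1, q.1 + q.2))
  refine ⟨I.image R, ?_, ?_⟩
  · calc (I.image R).card ≤ I.card := Finset.card_image_le
      _ ≤ (Finset.range (2 * n ^ 2 + 1) ×ˢ Finset.range 2).card := Finset.card_image_le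
      _ = 2 * (2 * n ^ 2 + 1) := by
        rw [Finset.card_product, Finset.card_range, Finset.card_range]; ring
  · rintro c ⟨y, h1, h2, rfl⟩
    simp only [Finset.coe_image, Set.mem_image, Finset.mem_coe]
    have hr := idx_range F y
    have hcard : F.card ≤ 2 * n ^ 2 := K_card P a b hb
    refine ⟨idx F y, ?_, ?_⟩
    · simp only [I, Finset.mem_image, Finset.mem_product, Finset.mem_range]
      rcases hr.2 with h3 | h3
      · exact ⟨((idx F y).1, 0), ⟨by have := hr.1; omega, by norm_num⟩, by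
          apply Prod.ext
          · rfl
          · simp [h3]⟩
      · exact ⟨((idx F y).1, 1), ⟨by have := hr.1; omega, by norm_num⟩, by
          apply Prod.ext
          · rfl
          · simp [h3]⟩
    · have hex : ∃ y', P.s a < y' ∧ y' < P.s b ∧ idx F y' = idx F y := ⟨y, h1, h2, rfl⟩
      have hs := hex.choose_spec
      simp only [R]
      rw [dif_pos hex]
      exact core_eq P hab ⟨hs.1, hs.2.1⟩ ⟨h1, h2⟩ (idx_same hs.2.2)

end Pool.Agent.R171.YG
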