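import Pool.Agent.R171.YG.Basic

set_option autoImplicit false

open Complex

namespace Pool.Agent.R171.YG

/-- Piece A: the convex polygons used for the lower bound. -/
def StmtA : Prop :=
  ∀ (n : ℕ), 4 ≤ n → ∀ ℓ : ℕ → ℝ, (∀ k, 0 < ℓ k) →
    ∃ P : Polygon n, ∃ R₁ R₂ : ℝ, 0 < R₁ ∧ (∑ k ∈ Finset.Ico 1 (n - 1), ℓ k) ≤ R₂ ∧
      P.s 1 = R₁ ∧
      (∀ k : ℕ, 1 ≤ k → k ≤ n - 2 → P.s ((k : ℤ) + 1) = P.s k + ℓ k) ∧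
      P.L = P.s ((n : ℤ) - 1) + R₂ ∧
      P.turn 0 = Real.pi - Real.pi / (n - 1) ∧
      (∀ k : ℕ, 1 ≤ k → k ≤ n - 2 → P.turn k = Real.pi / (n - 1)) ∧
      P.turn ((n : ℤ) - 1) = 2 * (Real.pi / (n - 1))

/-- Piece B: the lower bound (uses A). -/
def StmtB : Prop :=
  ∀ (n m : ℕ), 1 ≤ m → 3 * m + 1 ≤ n → ∃ P : Polygon n, m ^ 3 ≤ P.types.ncard

/-- Piece D1 (pure): an arc `(b, c)` of vertices folded in half has total turn at least `-π`. -/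
def StmtD1 : Prop :=
  ∀ (s τ : ℤ → ℝ), StrictMono s → ∀ b c : ℤ, b < c →
    (∀ k ∈ Finset.Ioo b c, -Real.pi ≤ τ k) →
    (∀ k ∈ Finset.Ioo b c, s b + s c - s k ≠ s k →
      (∀ d : ℤ, s b + s c - s k = s d → 0 ≤ τ k + τ d) ∧
      ((¬ ∃ d : ℤ, s b + s c - s k = s d) → 0 ≤ τ k)) →
    -Real.pi ≤ ∑ k ∈ Finset.Ioo b c, τ k

/-- The good pairs. -/
def Good (n : ℕ) (τ : ℤ → ℝ) : Set (ℤ × ℤ) :=
  {q | -(n : ℤ) ≤ q.1 ∧ q.1 ≤ n ∧ q.1 < q.2 ∧ q.2 < q.1 + n ∧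
    (∀ k ∈ Finset.Icc q.1 q.2, 0 ≤ τ k) ∧ Real.pi ≤ τ q.1 + τ q.2 ∧
    ∑ k ∈ Finset.Icc q.1 q.2, τ k ≤ 3 * Real.pi}

/-- Piece D2 (pure): there are only `O(n)` good pairs. -/
def StmtD2 : Prop :=
  ∀ (n : ℕ), 1 ≤ n → ∀ τ : ℤ → ℝ, (Good n τ).Finite ∧ (Good n τ).ncard ≤ 60 * n

end Pool.Agent.R171.YG
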