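import Pool.Agent.R171.YG.Slide
import Pool.Agent.R171.YG.Stm

set_option autoImplicit false

open Complex

namespace Pool.Agent.R171.YG

variable {n : ℕ}

theorem Polygon.ang_add_L (P : Polygon n) (t : ℝ) : P.ang (t + P.L) = P.ang t := by
  by_cases h : ∃ k : ℤ, t = P.s k
  · obtain ⟨k, rfl⟩ := h
    rw [← P.s_add_n, P.ang_s, P.ang_s]
    unfold Polygon.angle
    rw [P.turn_add_n]
  · rw [P.ang_of_not h, P.ang_of_not]
    rintro ⟨k, hk⟩
    apply h
    refine ⟨k - n, ?_⟩
    have := P.s_add_n (k - n)
    rw [sub_add_cancel] at this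
    linarith

def Fold (P : Polygon n) (lo hi : ℝ) : Prop :=
  ∀ x, lo < x → x < hi → x ≠ lo + hi - x → P.ang x + P.ang (lo + hi - x) ≤ 2 * Real.pi

theorem Fold.unshift {P : Polygon n} {lo hi : ℝ} (h : Fold P (lo + P.L) (hi + P.L)) :
    Fold P lo hi := by
  intro x h1 h2 h3
  have := h (x + P.L) (by linarith) (by linarith) (fun e => h3 (by linarith))
  rw [P.ang_add_L, show lo + P.L + (hi + P.L) - (x + P.L) = (lo + hi - x) + P.L by ring,
    P.ang_add_L] at this
  exact this

theorem Triple.ext' {P : Polygon n} {g g' : Triple P} (h : g.t = g'.t) : g = g' := by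
  cases g; cases g'; simp only at h; subst h; rfl

theorem Triple.glued_iff {P : Polygon n} (g : Triple P) (x y : ℝ) :
    g.Glued x y ↔ (∃ e : ℤ, x = y + e * P.L) ∨ GA P (g.t 0) (g.t 1) x y ∨
      GA P (g.t 1) (g.t 2) x y ∨ GA P (g.t 2) (g.t 0 + P.L) x y := by
  unfold Triple.Glued GA Triple.lo Triple.hi
  constructor
  · rintro (h | ⟨a, b, i, h⟩)
    · exact Or.inl h
    · fin_cases i
      · exact Or.inr (Or.inl ⟨a, b, by simpa using h⟩)
      · exact Or.inr (Or.inr (Or.inl ⟨a, b, by simpa using h⟩))
      · exact Or.inr (Or.inr (Or.inr ⟨a, b, by simpa using h⟩))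
  · rintro (h | ⟨a, b, h⟩ | ⟨a, b, h⟩ | ⟨a, b, h⟩)
    · exact Or.inl h
    · exact Or.inr ⟨a, b, 0, by simpa using h⟩
    · exact Or.inr ⟨a, b, 1, by simpa using h⟩
    · exact Or.inr ⟨a, b, 2, by simpa using h⟩

/-- the parameters of a gluing with a junction point in the interior of a side -/
structure Par (P : Polygon n) (g : Triple P) (j : Fin 3) (a b : ℤ) (y : ℝ) : Prop where
  ha1 : -(n : ℤ) ≤ a
  ha2 : a ≤ n
  hab : a < b
  hbn : b < a + n
  hy1 : P.s a < y
  hy2 : y < P.s b
  hy : ¬ ∃ k : ℤ, y = P.s k
  typ : g.typ = build P (P.s a) (P.s b) j (core P (P.s a) (P.s b) y)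
  f1 : Fold P (P.s a) y
  f2 : Fold P y (P.s b)
  f3 : Fold P (P.s b) (P.s (a + n))
  ht : Real.pi ≤ P.turn a + P.turn b

theorem vertex_of_lt (P : Polygon n) {t : ℝ} (h : P.ang t < Real.pi) : ∃ k : ℤ, t = P.s k := by
  by_contra hn
  rw [P.ang_of_not hn] at h
  exact lt_irrefl _ h

theorem typ_mk {P : Polygon n} (g : Triple P) (A B y : ℝ) (j : Fin 3)
    (h0 : cells P (g.t 0) = (build P A B j (core P A B y)).1 0)
    (h1 : cells P (g.t 1) = (build P A B j (core P A B y)).1 1)
    (h2 : cells P (g.t 2) = (build P A B j (core P A B y)).1 2)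
    (m0 : cells P ((g.t 0 + g.t 1) / 2) = (build P A B j (core P A B y)).2.1 0)
    (m1 : cells P ((g.t 1 + g.t 2) / 2) = (build P A B j (core P A B y)).2.1 1)
    (m2 : cells P ((g.t 2 + (g.t 0 + P.L)) / 2) = (build P A B j (core P A B y)).2.1 2)
    (hl : ∀ x z, g.Glued x z ↔ ((∃ e : ℤ, x = z + e * P.L) ∨ GA P A y x z ∨ GA P y B x z ∨
      GA P B (A + P.L) x z)) :
    g.typ = build P A B j (core P A B y) := by
  have hb : (build P A B j (core P A B y)).2.2 = lab P A y B := by
    unfold build core; split_ifs <;> rfl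
  apply Prod.ext
  · funext i
    fin_cases i
    · exact h0
    · exact h1
    · exact h2
  · apply Prod.ext
    · funext i
      fin_cases i
      · simpa [Triple.typ, Triple.lo, Triple.hi, cells] using m0
      · simpa [Triple.typ, Triple.lo, Triple.hi, cells] using m1
      · simpa [Triple.typ, Triple.lo, Triple.hi, cells] using m2
    · rw [hb]
      funext v
      ext c
      simp only [Triple.typ, lab, Set.mem_ofPred_eq]
      constructor
      · rintro ⟨x, z, h1, h2, h3⟩
        exact ⟨x, z, h1, (hl x z).mp h2, h3⟩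
      · rintro ⟨x, z, h1, h2, h3⟩
        exact ⟨x, z, h1, (hl x z).mpr h2, h3⟩

theorem exists_par {P : Polygon n} (g : Triple P) (hg : g.Alexandrov) :
    (∃ k : Fin 3 → ℤ, ∀ i, 0 ≤ k i ∧ k i < n ∧ g.t i = P.s (k i)) ∨
      ∃ j a b y, Par P g j a b y := by
  have hn := P.n_pos
  have h0 := g.nonneg
  have h01 := g.lt01
  have h12 := g.lt12
  have h2 := g.lt2
  have hs0 := P.s_zero
  have hL : P.L = P.s n := rfl
  have p0 := P.ang_pos (g.t 0)
  have p1 := P.ang_pos (g.t 1)
  have p2 := P.ang_pos (g.t 2)
  have hsum := hg.1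
  have F01 : Fold P (g.t 0) (g.t 1) := by
    intro x hx1 hx2 hx3
    have := hg.2 0 x (by simpa [Triple.lo] using hx1) (by simpa [Triple.hi] using hx2)
      (by simpa [Triple.lo, Triple.hi] using hx3)
    simpa [Triple.lo, Triple.hi] using this
  have F12 : Fold P (g.t 1) (g.t 2) := by
    intro x hx1 hx2 hx3
    have := hg.2 1 x (by simpa [Triple.lo] using hx1) (by simpa [Triple.hi] using hx2)
      (by simpa [Triple.lo, Triple.hi] using hx3)
    simpa [Triple.lo, Triple.hi] using this
  have F20 : Fold P (g.t 2) (g.t 0 + P.L) := by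
    intro x hx1 hx2 hx3
    have := hg.2 2 x (by simpa [Triple.lo] using hx1) (by simpa [Triple.hi] using hx2)
      (by simpa [Triple.lo, Triple.hi] using hx3)
    simpa [Triple.lo, Triple.hi] using this
  have hangle : ∀ k : ℤ, P.ang (P.s k) = Real.pi - P.turn k := fun k => P.ang_s k
  have hmono := P.s_strictMono
  by_cases v0 : ∃ k : ℤ, g.t 0 = P.s k
  · by_cases v1 : ∃ k : ℤ, g.t 1 = P.s k
    · by_cases v2 : ∃ k : ℤ, g.t 2 = P.s k
      · left
        obtain ⟨k0, e0⟩ := v0
        obtain ⟨k1, e1⟩ := v1
        obtain ⟨k2, e2⟩ := v2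
        have r0 : 0 ≤ k0 := hmono.le_iff_le.mp (by linarith)
        have r01 : k0 < k1 := hmono.lt_iff_lt.mp (by linarith)
        have r12 : k1 < k2 := hmono.lt_iff_lt.mp (by linarith)
        have r2 : k2 < n := hmono.lt_iff_lt.mp (by linarith)
        refine ⟨![k0, k1, k2], fun i => ?_⟩
        fin_cases i
        · exact ⟨r0, by simp; omega, e0⟩
        · exact ⟨by simp; omega, by simp; omega, e1⟩
        · exact ⟨by simp; omega, by simp; omega, e2⟩
      · -- j = 2
        right
        rw [P.ang_of_not v2] at hsum p2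
        obtain ⟨c, ec⟩ := v0
        obtain ⟨a, ea⟩ := v1
        have r0 : 0 ≤ c := hmono.le_iff_le.mp (by linarith)
        have r01 : c < a := hmono.lt_iff_lt.mp (by linarith)
        have r2 : a < n := hmono.lt_iff_lt.mp (by linarith)
        have hB : P.s (c + n) = g.t 0 + P.L := by rw [P.s_add_n, ← ec]
        refine ⟨2, a, c + n, g.t 2, ⟨by omega, by omega, by omega, by omega, by linarith,
          by linarith, v2, ?_, by rw [← ea]; exact F12, by rw [hB]; exact F20, ?_, ?_⟩⟩
        · apply typ_mk
          · simp [build, hB, cells_add_L]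
          · simp [build, ea]
          · simp [build, core]
          · simp only [build]
            norm_num
            rw [hB, ← ea, ← cells_add_L]
            congr 1; ring
          · simp [build, core, ea]
          · simp [build, core, hB]
          · intro x z
            rw [g.glued_iff, hB, ← ea, GA_shift]
            tauto
        · rw [hB, P.s_add_n, ← ea]
          apply Fold.unshift (P := P) (lo := g.t 0 + P.L) (hi := g.t 1 + P.L) |> fun h => ?_
          intro x hx1 hx2 hx3
          have := F01 (x - P.L) (by linarith) (by linarith) (fun e => hx3 (by linarith))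
          rw [← P.ang_add_L (x - P.L), ← P.ang_add_L (g.t 0 + g.t 1 - (x - P.L))] at this
          rw [show x - P.L + P.L = x by ring,
            show g.t 0 + g.t 1 - (x - P.L) + P.L = g.t 0 + P.L + (g.t 1 + P.L) - x by ring] at this
          exact this
        · rw [ec, ea, hangle, hangle] at hsum
          rw [P.turn_add_n]; linarith
    · -- j = 1
      right
      rw [P.ang_of_not v1] at hsum p1
      obtain ⟨a, ea⟩ := v0
      obtain ⟨b, eb⟩ := vertex_of_lt P (t := g.t 2) (by linarith)
      have r0 : 0 ≤ a := hmono.le_iff_le.mp (by linarith)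
      have r01 : a < b := hmono.lt_iff_lt.mp (by linarith)
      have r2 : b < n := hmono.lt_iff_lt.mp (by linarith)
      refine ⟨1, a, b, g.t 1, ⟨by omega, by omega, by omega, by omega, by linarith,
        by linarith, v1, ?_, by rw [← ea]; exact F01, by rw [← eb]; exact F12,
        by rw [P.s_add_n, ← ea, ← eb]; exact F20, ?_⟩⟩
      · apply typ_mk
        · simp [build, ea]
        · simp [build, core]
        · simp [build, eb]
        · simp [build, core, ea]
        · simp [build, core, eb]
        · simp [build, ea, eb]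
        · intro x z
          rw [g.glued_iff, ← ea, ← eb]
      · rw [ea, eb, hangle, hangle] at hsum
        linarith
  · -- j = 0
    right
    rw [P.ang_of_not v0] at hsum p0
    obtain ⟨b, eb⟩ := vertex_of_lt P (t := g.t 1) (by linarith)
    obtain ⟨c, ec⟩ := vertex_of_lt P (t := g.t 2) (by linarith)
    have r1 : 0 < b := hmono.lt_iff_lt.mp (by linarith)
    have r12 : b < c := hmono.lt_iff_lt.mp (by linarith)
    have r2 : c < n := hmono.lt_iff_lt.mp (by linarith)
    have hA : P.s (c - n) + P.L = g.t 2 := by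
      rw [← P.s_add_n, sub_add_cancel, ec]
    refine ⟨0, c - n, b, g.t 0, ⟨by omega, by omega, by omega, by omega, by linarith,
      by linarith, v0, ?_, ?_, by rw [← eb]; exact F01, ?_, ?_⟩⟩
    · apply typ_mk
      · simp [build, core]
      · simp [build, eb]
      · simp only [build]
        norm_num
        rw [← hA, cells_add_L]
        rfl
      · simp [build, core, eb]
      · simp only [build]
        norm_num
        rw [hA, ← eb]
      · simp only [build, core]
        norm_num
        rw [← hA, ← cells_add_L P ((P.s (c - n) + g.t 0) / 2)]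
        congr 1; ring
      · intro x z
        rw [g.glued_iff, ← eb, hA, ← GA_shift P (P.s (c - n)), hA]
        tauto
    · apply Fold.unshift
      rw [hA]; exact F20
    · rw [show c - (n:ℤ) + n = c by ring, ← ec, ← eb]; exact F12
    · rw [eb, ec, hangle, hangle] at hsum
      have := P.turn_add_n (c - n)
      rw [sub_add_cancel] at this
      linarith

end Pool.Agent.R171.YG
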